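import Pool.Agent.Helper546_sympct.Limit

/-!
# MP_ec5dc5_gt, Q1 (a), (b): large contractible open sets of compactly supported symplectomorphisms

`SympCt (om n)` is the group `G` of the diffeomorphisms of `ℝ^{2n}` which preserve the standard
symplectic form `ω` and are the identity outside a compact set, with the direct limit, over the
compact sets `K`, of the `C^∞` topologies on the subgroups with support in `K`.

Let `P` be a linear map of `ℝ^{2n}` with `ω(P u, v) + ω(u, P v) = ω(u, v)`, that is, one half of the
identity plus an element of the symplectic Lie algebra. Such maps correspond to the linear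
Lagrangian subspaces of the product of two copies of `ℝ^{2n}` which are transverse to the diagonal,
and hence to the types of generating functions. The set `W_P` of all `φ` such that no linear map
`P (dφ(z) - 1)` has a real eigenvalue `≤ -1` is open and contractible, and contains the identity.
In particular all elements of `W_P` are isotopic to the identity in `G`.

* For `P = 1/2` the condition is that no derivative `dφ(z)` has a negative real eigenvalue. (The
  eigenvalues `≤ -1` are excluded directly, the others by the symmetry of the spectrum.) It holds if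
  `‖dφ(z) - 1‖ < 2` for all `z`, in the operator norm of any norm on `ℝ^{2n}`.
* If `P` is the projection to the second factor of `ℝ^{2n} = ℝⁿ × ℝⁿ`, `φ = (X, Y)`, the condition is
  that no `n × n`-matrix `∂Y/∂y (z)` has a real eigenvalue `≤ 0`.

The contraction is `φ_t = (1 + (P + t (1 - P)) (φ - 1)) ∘ (1 + (1 - t) P (φ - 1))⁻¹`.
-/

set_option autoImplicit false

noncomputable section

namespace Pool.Agent.Results.MP_ec5dc5_gt.ContractibleOpenSets

open Pool.Agent.Helper546_sympct

/-- No linear map `P (dφ(z) - 1)` has a real eigenvalue `≤ -1`. -/
def InW {n : ℕ} (P : R2 n →L[ℝ] R2 n) (φ : SympCt (om n)) : Prop :=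
  ∀ z : R2 n, ∀ c : ℝ, c ≤ -1 → ∀ v : R2 n, P (fderiv ℝ φ.toEquiv z v - v) = c • v → v = 0

/-- For every linear map `P` with `ω(P u, v) + ω(u, P v) = ω(u, v)` the set `W_P` is open and
contractible, and contains the identity; its elements are isotopic to the identity. -/
theorem result (n : ℕ) (P : R2 n →L[ℝ] R2 n)
    (hP : ∀ u v, om n (P u) v + om n u (P v) = om n u v) :
    IsOpen {φ : SympCt (om n) | InW P φ} ∧ ContractibleSpace {φ : SympCt (om n) // InW P φ} ∧
      InW P (idSymp (om n)) ∧ ∀ φ : SympCt (om n), InW P φ → Joined (idSymp (om n)) φ := by
  have hΩ := isSympForm_om n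
  have hid : InW P (idSymp (om n)) := good_id P
  have hc : ContractibleSpace {φ : SympCt (om n) // InW P φ} := contractible_goodSet hΩ hP
  refine ⟨isOpen_goodSet P, hc, hid, fun φ hφ => ?_⟩
  have hj : Joined (⟨idSymp (om n), hid⟩ : {φ : SympCt (om n) // InW P φ}) ⟨φ, hφ⟩ :=
    PathConnectedSpace.joined _ _
  exact hj.map continuous_subtype_val

end Pool.Agent.Results.MP_ec5dc5_gt.ContractibleOpenSets
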