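import Pool.Agent.Helper546_sympct.Limit

/-!
# MP_ec5dc5_gt, Q1 (c): the group of compactly supported symplectomorphisms of `ℝ^{2n}` has
countably many path components, and countable homotopy groups

`SympCt (om n)` is the set of the diffeomorphisms of `ℝ^{2n}` which preserve the standard symplectic
form and are the identity outside a compact set, with the direct limit, over the compact sets `K`,
of the `C^∞` topologies on the subgroups with support in `K`.

Proof. If no derivative of `φ` has a negative real eigenvalue then
`φ_t = ((1 - t) + (1 + t) φ) ∘ ((1 + t) + (1 - t) φ)⁻¹` is an isotopy of symplectomorphisms with
the support of `φ`, from the identity to `φ`. It depends continuously on `φ` in the `C^∞` topology.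
So the subgroup of the symplectomorphisms with support in `K` is a second countable topological
group with an open neighbourhood of the identity which contracts to the identity; hence there are
countably many homotopy classes of maps of the `k`-cube. Finally, a compact subset of the direct
limit lies in one of these subgroups, for a ball `K`.
-/

set_option autoImplicit false

noncomputable section

namespace Pool.Agent.Results.MP_ec5dc5_gt.CountableHomotopy

open Pool.Agent.Helper546_sympct

/-- The group of compactly supported symplectomorphisms of `ℝ^{2n}` has countably many path
components, and all its homotopy groups are countable. -/
theorem result (n : ℕ) : Countable (ZerothHomotopy (SympCt (om n))) ∧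
    ∀ k : ℕ, Countable (HomotopyGroup (Fin k) (SympCt (om n)) (idSymp (om n))) :=
  ⟨countable_zerothHomotopy (isSympForm_om n), countable_homotopyGroup (isSympForm_om n)⟩

end Pool.Agent.Results.MP_ec5dc5_gt.CountableHomotopy
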