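import Pool.Agent.Helper597_mosct.OscC

/-!
# MP_ec5dc5_gt, Q1 (b): compactly supported symplectomorphisms with small mean oscillation

Let `K` be a bounded star-shaped neighbourhood of the origin of `ℝ^{2n}` and let `F`, `F₁` be
symplectomorphisms of `ℝ^{2n}` which are the identity outside `K`. (Every compactly supported
symplectomorphism is of this kind, for instance with a ball `K`.) For a linear map `T` of `ℝ^{2n}`
let `mean F T x` be the mean of the derivative of `F` over the parallelepiped `x + T [0, 1]^{2n}`. A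
linear map `M` is called *unopposed* if none of the forms `(1 - ρ) ω + ρ M^* ω`, `0 ≤ ρ ≤ 1`, is
degenerate.

1. Let `T s`, `0 ≤ s ≤ 1`, be a smooth path of linear maps with `T 0 = 0`. If all the means
   `mean F (T s) x`, `mean F₁ (T s) x` and `(1 - t) mean F (T 1) x + t mean F₁ (T 1) x` are
   unopposed, then `F` and `F₁` are joined by a smooth path of symplectomorphisms which are the
   identity outside `K`.
2. If the mean over each cube of `‖DF - M‖²`, where `M` is the mean of the derivative `DF` over the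
   cube and the norm is the Frobenius norm, is less than `2`, then `F` is joined to the identity by
   such a path.
3. The same holds if `F` has Lipschitz constant `Λ` with `n (n + 1) (Λ² - Λ⁻²) < 3`.

The derivative of such a map may rotate by any angle (like that of `z ↦ exp (i ε log |z|) z`,
smoothed near `0` and cut off), so these maps need not have a generating function of a given type.

Proof. Move `F` through its means over cubes of increasing size, which are not symplectic, and
correct the resulting family by Moser's method; finally shrink the supports by homotheties.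
-/

set_option autoImplicit false

noncomputable section

namespace Pool.Agent.Results.MP_ec5dc5_gt.MeanOscillation

open Pool.Agent.Helper597_torsymp MeasureTheory
open scoped ContDiff

/-- the mean of the derivative of `F` over the parallelepiped `x + T [0, 1]^{2n}` -/
def mean {n : ℕ} (F : V n → V n) (T : V n →L[ℝ] V n) (x : V n) : V n →L[ℝ] V n :=
  ∫ y in Set.Icc (0 : V n) 1, fderiv ℝ F (x + T y)

/-- none of the forms `(1 - ρ) ω + ρ M^* ω`, `0 ≤ ρ ≤ 1`, is degenerate -/
def Unopposed {n : ℕ} (M : V n →L[ℝ] V n) : Prop :=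
  ∀ ρ ∈ Set.Icc (0 : ℝ) 1, ∀ u, (∀ v, (1 - ρ) * om u v + ρ * om (M u) (M v) = 0) → u = 0

/-- the homothety with factor `s` -/
def homothety {n : ℕ} (s : ℝ) : V n →L[ℝ] V n := s • ContinuousLinearMap.id ℝ (V n)

/-- the square of the Frobenius norm of a linear map -/
def frobSq {n : ℕ} (L : V n →L[ℝ] V n) : ℝ := ∑ j, ∑ i, L (Pi.single j 1) i ^ 2

/-- the square of the euclidean norm -/
def normSq {n : ℕ} (v : V n) : ℝ := ∑ i, v i ^ 2

/-- all means of the derivatives of `F₀` and `F₁` over the parallelepipeds `x + T s [0, 1]^{2n}`,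
`0 ≤ s ≤ 1`, and, for `s = 1`, also their convex combinations, are unopposed -/
def UnopposedMeans {n : ℕ} (T : ℝ → V n →L[ℝ] V n) (F₀ F₁ : V n → V n) : Prop :=
  (∀ s ∈ Set.Icc (0 : ℝ) 1, ∀ x, Unopposed (mean F₀ (T s) x) ∧ Unopposed (mean F₁ (T s) x)) ∧
    ∀ t ∈ Set.Icc (0 : ℝ) 1, ∀ x, Unopposed ((1 - t) • mean F₀ (T 1) x + t • mean F₁ (T 1) x)

/-- the mean oscillation of `DF`, in the Frobenius norm, is less than `√2` on all cubes: the mean
over the cube of `‖DF - M‖²` is less than two, where `M` is the mean of `DF` over the cube -/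
def SmallOscillation {n : ℕ} (F : V n → V n) : Prop :=
  ∀ x, ∀ s : ℝ, 0 < s → ∫ y in Set.Icc (0 : V n) 1,
    frobSq (fderiv ℝ F (x + s • y) - mean F (homothety s) x) < 2

/-- `F` has Lipschitz constant `Λ` for the euclidean metric -/
def Pinched {n : ℕ} (Λ : ℝ) (F : V n → V n) : Prop :=
  ∀ x y, normSq (F x - F y) ≤ Λ ^ 2 * normSq (x - y)

/-- `F` is a symplectomorphism of `ℝ^{2n}` which is the identity outside `K` -/
structure IsSympIn {n : ℕ} (K : Set (V n)) (F : V n → V n) : Prop where
  smooth : ContDiff ℝ ∞ F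
  inverse : ∃ H : V n → V n, ContDiff ℝ ∞ H ∧ Function.LeftInverse H F ∧ Function.RightInverse H F
  symplectic : ∀ x u v, om (fderiv ℝ F x u) (fderiv ℝ F x v) = om u v
  support : ∀ x, x ∉ K → F x = x

/-- there is a smooth family of symplectomorphisms `G t`, `0 ≤ t ≤ 1`, from `F₀` to `F₁`, which are
the identity outside `K` -/
def IsotopicIn {n : ℕ} (K : Set (V n)) (F₀ F₁ : V n → V n) : Prop :=
  ∃ G : ℝ → V n → V n, ContDiff ℝ ∞ (fun p : ℝ × V n => G p.1 p.2) ∧ G 0 = F₀ ∧ G 1 = F₁ ∧
    ∀ t ∈ Set.Icc (0 : ℝ) 1, IsSympIn K (G t)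

theorem frobSq_eq {n : ℕ} (L : V n →L[ℝ] V n) : frobSq L = Helper597_mos.frob L := by
  unfold frobSq Helper597_mos.frob Helper597_mos.ip bv
  simp only [sq]

theorem normSq_eq {n : ℕ} (v : V n) : normSq v = Helper597_mos.ip v v := by
  unfold normSq Helper597_mos.ip
  simp only [sq]

theorem isSympIn_iff {n : ℕ} {K : Set (V n)} {F : V n → V n} :
    IsSympIn K F ↔ Helper597_mosct.IsSympIn K F :=
  ⟨fun h => ⟨h.1, h.2, h.3, h.4⟩, fun h => ⟨h.1, h.2, h.3, h.4⟩⟩

theorem isotopicIn_iff {n : ℕ} {K : Set (V n)} {F₀ F₁ : V n → V n} :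
    IsotopicIn K F₀ F₁ ↔ Helper597_mosct.IsotopicIn K F₀ F₁ := by
  unfold IsotopicIn Helper597_mosct.IsotopicIn
  simp only [isSympIn_iff]

/-- Compactly supported symplectomorphisms with unopposed means of the derivative, with small mean
oscillation of the derivative, or with Lipschitz constant near one. -/
theorem result (n : ℕ) (K : Set (V n)) (hKb : Bornology.IsBounded K) (hKs : StarConvex ℝ 0 K)
    (hK0 : K ∈ nhds (0 : V n)) (F F₁ : V n → V n) (hF : IsSympIn K F) (hF₁ : IsSympIn K F₁) :
    (∀ T : ℝ → V n →L[ℝ] V n, ContDiff ℝ ∞ T → T 0 = 0 → UnopposedMeans T F F₁ →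
      IsotopicIn K F F₁) ∧
    (SmallOscillation F → IsotopicIn K id F) ∧
    ∀ Λ : ℝ, 0 < Λ → (n : ℝ) * (n + 1) * (Λ ^ 2 - (Λ ^ 2)⁻¹) < 3 → Pinched Λ F →
      IsotopicIn K id F := by
  rw [isSympIn_iff] at hF hF₁
  simp only [isotopicIn_iff]
  refine ⟨?_, ?_, ?_⟩
  · intro T hT hT0 h
    exact Helper597_mosct.isotopicIn_of_means hKb hKs hK0 hF hF₁ hT hT0
      (fun s hs x => (h.1 s hs x).1) (fun s hs x => (h.1 s hs x).2) h.2
  · intro ho
    refine Helper597_mosct.isotopicIn_of_osc hKb hKs hK0 hF fun x s hs => ?_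
    have h := ho x s hs
    simp only [frobSq_eq] at h
    exact h
  · intro Λ hΛ hp hL
    refine Helper597_mosct.isotopicIn_of_pinched hKb hKs hK0 hF (c := Λ ^ 2) (by positivity)
      (fun x y => ?_) hp
    have h := hL x y
    simp only [normSq_eq] at h
    exact h

end Pool.Agent.Results.MP_ec5dc5_gt.MeanOscillation
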